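import Pool.Agent.D0H93.ZF.Main
import Pool.Agent.Y199.SG.ZPW

/-!
# Families over an elliptic curve which degenerate to a CM point
-/

set_option autoImplicit false

namespace Pool.Agent.D0H93.ZF

open MvPolynomial UpperHalfPlane H294ZP NumberField IsDedekindDomain Pool.Agent.TH526.ZL
open Pool.Agent.D0H93.ZC Pool.Agent.Y199.SG
open Pool.Agent.N135.ZO (OrdAt Isog)

/-- A polynomial in two variables on the curve `y² = x³ + a x + b`. -/
theorem exists_reduce (a b : ℂ) (f : MvPolynomial (Fin 2) ℂ) : ∃ f0 f1 : Polynomial ℂ,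
    ∀ P ∈ aff a b, eval P f = f0.eval (P 0) + f1.eval (P 0) * P 1 := by
  induction f using MvPolynomial.induction_on with
  | C c => exact ⟨Polynomial.C c, 0, fun P _ => by simp⟩
  | add f g hf hg =>
    obtain ⟨f0, f1, hf⟩ := hf
    obtain ⟨g0, g1, hg⟩ := hg
    refine ⟨f0 + g0, f1 + g1, fun P hP => ?_⟩
    rw [map_add, hf P hP, hg P hP, Polynomial.eval_add, Polynomial.eval_add]
    ring
  | mul_X f j hf =>
    obtain ⟨f0, f1, hf⟩ := hf
    fin_cases j
    · refine ⟨f0 * Polynomial.X, f1 * Polynomial.X, fun P hP => ?_⟩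
      rw [map_mul, hf P hP, eval_X, Polynomial.eval_mul, Polynomial.eval_mul, Polynomial.eval_X]
      simp only [Fin.zero_eta]
      ring
    · refine ⟨f1 * (Polynomial.X ^ 3 + Polynomial.C a * Polynomial.X + Polynomial.C b), f0,
        fun P hP => ?_⟩
      have hP' : P 1 ^ 2 = P 0 ^ 3 + a * P 0 + b := hP
      rw [map_mul, hf P hP, eval_X, Polynomial.eval_mul]
      simp only [Fin.mk_one, Polynomial.eval_add, Polynomial.eval_mul, Polynomial.eval_pow,
        Polynomial.eval_X, Polynomial.eval_C]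
      linear_combination (Polynomial.eval (P 0) f1) * hP'

/-- A polynomial which does not vanish identically on the curve has finitely many zeros on it. -/
theorem zeros_finite (a b : ℂ) (f : MvPolynomial (Fin 2) ℂ) (h : ∃ P ∈ aff a b, eval P f ≠ 0) :
    {P : Fin 2 → ℂ | P ∈ aff a b ∧ eval P f = 0}.Finite := by
  obtain ⟨f0, f1, hf⟩ := exists_reduce a b f
  set hh : Polynomial ℂ := Polynomial.X ^ 3 + Polynomial.C a * Polynomial.X + Polynomial.C b with hhd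
  have hdeg : hh.natDegree = 3 := by
    rw [hhd]
    compute_degree!
  have hh0 : hh ≠ 0 := by
    intro h0
    rw [h0] at hdeg
    simp at hdeg
  have hN : f0 ^ 2 - f1 ^ 2 * hh ≠ 0 := by
    intro h0
    have h1 : f0 ^ 2 = f1 ^ 2 * hh := sub_eq_zero.1 h0
    have hf1 : f1 = 0 := by
      by_contra hne
      have h2 := congrArg Polynomial.natDegree h1
      rw [Polynomial.natDegree_pow, Polynomial.natDegree_mul (pow_ne_zero _ hne) hh0,
        Polynomial.natDegree_pow, hdeg] at h2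
      omega
    have hf0 : f0 = 0 := by
      rw [hf1] at h1
      simpa using h1
    obtain ⟨P, hP, hne⟩ := h
    apply hne
    rw [hf P hP, hf0, hf1]
    simp
  refine (fibres_finite a b (Polynomial.finite_setOfPred_isRoot hN)).subset ?_
  rintro P ⟨hP, h0⟩
  refine ⟨hP, ?_⟩
  have hP' : P 1 ^ 2 = P 0 ^ 3 + a * P 0 + b := hP
  rw [hf P hP] at h0
  change Polynomial.eval (P 0) _ = 0
  rw [Polynomial.eval_sub, Polynomial.eval_mul, Polynomial.eval_pow, Polynomial.eval_pow, hhd,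
    Polynomial.eval_add, Polynomial.eval_add, Polynomial.eval_mul, Polynomial.eval_pow,
    Polynomial.eval_X, Polynomial.eval_C, Polynomial.eval_C, ← hP']
  linear_combination (Polynomial.eval (P 0) f0 - Polynomial.eval (P 0) f1 * P 1) * h0

theorem main_ell {κ : Type} [Finite κ] {N n m : ℕ}
    (G : κ → MvPolynomial (Fin (N + 1)) (Polynomial Qb)) (hG : ∀ i, ∃ e, (G i).IsHomogeneous e)
    (A B : Fin n → MvPolynomial (Fin (N + 1)) (Polynomial Qb)) (d : Fin n → ℕ)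
    (hA : ∀ i, (A i).IsHomogeneous (d i)) (hB : ∀ i, (B i).IsHomogeneous (d i))
    (a b : Qb) (hab : 4 * a ^ 3 + 27 * b ^ 2 ≠ 0)
    (u w : MvPolynomial (Fin 2) Qb) (c : Fin n → MvPolynomial (Fin 2) Qb) (q : Fin 2 → Qb)
    (hq : q 1 ^ 2 = q 0 ^ 3 + a * q 0 + b)
    (hc0 : ∀ i, ∃ P : Fin 2 → ℂ, P ∈ aff a b ∧ aeval P (c i) ≠ 0)
    (hwq : eval q w ≠ 0) (hcq : ∀ i, eval q (c i) = 0)
    (hdis : ∀ I : Finset (Fin n), I.card = m + 1 → ∀ y : Fin (N + 1) → ℂ,
      (∀ i, aeval y (spec (eval q u / eval q w) (G i)) = 0) →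
      (∀ i ∈ I, aeval y (spec (eval q u / eval q w) (A i)) *
        aeval y (spec (eval q u / eval q w) (B i)) = 0) → y = 0)
    (τ : Fin n → Option ℍ) (hcm : ∀ i z, τ i = some z → IsCM z)
    (hτq : ∀ i z, τ i = some z → (z : ℂ) ∈
      IntermediateField.adjoin ℚ (Set.range fun j => ((q j : Qb) : ℂ)))
    (h0 : ∀ i z, τ i = some z → jj z ≠ 0) (h1728 : ∀ i z, τ i = some z → jj z ≠ 1728)
    (hiso : ∀ i j z z', i ≠ j → τ i = some z → τ j = some z' → ¬ Isog (jj z) (jj z'))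
    (hcusp : ∀ i j, τ i = none → τ j = none → i = j) :
    {P : Fin 2 → ℚ | ((P 1 : ℂ)) ^ 2 = (P 0 : ℂ) ^ 3 + a * (P 0 : ℂ) + b ∧
      ¬ (eval (pQ P) w ≠ 0 ∧ ∀ (r : ℕ) (Z : SpecialDatum n r) (x : Fin n → ℂ), x ∈ Z.locus →
      ∀ y : Fin (N + 1) → ℂ, y ≠ 0 →
      (∀ i, aeval y (spec (eval (pQ P) u / eval (pQ P) w) (G i)) = 0) →
      (∀ i, Eqn (τ i) ((eval (pQ P) (c i) : Qb) : ℂ)
        (aeval y (spec (eval (pQ P) u / eval (pQ P) w) (A i)))
        (aeval y (spec (eval (pQ P) u / eval (pQ P) w) (B i))) (x i)) →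
      ∀ S : Finset (Fin n), AlgebraicIndependent ℚ (fun i : S => x i) →
        n + S.card ≤ r + m)}.Finite := by
  classical
  have hQalg : ∀ z : Qb, IsAlgebraic ℚ (z : ℂ) := fun z => (mem_algebraicClosure_iff.1 z.2)
  obtain ⟨D, hD⟩ := local_family G hG A B d hA hB u w c q hwq hcq hdis τ hcm hτq h0 h1728 hiso hcusp
  let s : Finset ℂ := (Finset.range (D + 1)).image fun k : ℕ => (1 : ℂ) / k
  have hab' : 4 * (a : ℂ) ^ 3 + 27 * (b : ℂ) ^ 2 ≠ 0 := by
    intro h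
    apply hab
    apply Subtype.ext
    have h1 : (((4 * a ^ 3 + 27 * b ^ 2 : Qb)) : ℂ) = 4 * (a : ℂ) ^ 3 + 27 * (b : ℂ) ^ 2 := by
      push_cast
      rfl
    rw [h1, h]
    rfl
  have hq' : (fun j => ((q j : Qb) : ℂ)) ∈ aff (a : ℂ) (b : ℂ) := by
    change ((q 1 : Qb) : ℂ) ^ 2 = ((q 0 : Qb) : ℂ) ^ 3 + (a : ℂ) * ((q 0 : Qb) : ℂ) + (b : ℂ)
    exact_mod_cast congrArg (fun z : Qb => (z : ℂ)) hq
  have hfd : FiniteDimensional ℚ (⊥ : IntermediateField ℚ ℂ) := inferInstance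
  have hfin := near_pt a b (hQalg a) (hQalg b) hab' _ hq' (fun i => hQalg _) ⊥ s
  have hZ : (⋃ i, {P : Fin 2 → ℂ | P ∈ aff (a : ℂ) (b : ℂ) ∧ aeval P (c i) = 0}).Finite := by
    refine Set.finite_iUnion fun i => ?_
    have h1 := zeros_finite (a : ℂ) (b : ℂ) (map (algebraMap Qb ℂ) (c i)) (by
      obtain ⟨P, hP, hne⟩ := hc0 i
      refine ⟨P, hP, ?_⟩
      rw [eval_map]
      exact hne)
    refine h1.subset ?_
    rintro P ⟨hP, h2⟩
    refine ⟨hP, ?_⟩
    rw [eval_map]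
    exact h2
  have hinj : Function.Injective (fun (P : Fin 2 → ℚ) (j : Fin 2) => ((P j : ℚ) : ℂ)) := by
    intro P P' h
    funext j
    exact Rat.cast_injective (congrFun h j)
  refine ((hfin.union hZ).preimage hinj.injOn).subset ?_
  rintro P ⟨hP, hbad⟩
  by_contra hcon
  apply hbad
  rw [Set.mem_preimage, Set.mem_union, not_or] at hcon
  obtain ⟨hcon1, hcon2⟩ := hcon
  have hPaff : (fun j => ((P j : ℚ) : ℂ)) ∈ aff (a : ℂ) (b : ℂ) := hP
  have h1 : ∃ (p : ℕ) (_ : Fact p.Prime) (ρ : ℂ →+* PadicAlgCl p),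
      (∀ y ∈ s, ‖ρ y‖ ≤ 1) ∧ ∀ i, ‖ρ ((P i : ℚ) : ℂ) - ρ ((q i : Qb) : ℂ)‖ < 1 := by
    by_contra hno
    exact hcon1 ⟨hPaff, fun i => SubfieldClass.ratCast_mem _ (P i), hno⟩
  obtain ⟨p, hp, ρ, hρs, hρn⟩ := h1
  have hpp : p.Prime := hp.out
  have hnp : ‖((p : ℕ) : PadicAlgCl p)‖ < 1 := Pool.Agent.Y199.DM.norm_natCast_p_lt
  have hDp : D < p := by
    by_contra hle
    push Not at hle
    have h2 := hρs (1 / (p : ℂ)) (Finset.mem_image.2 ⟨p, Finset.mem_range.2 (by omega), rfl⟩)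
    rw [map_div₀, map_one, map_natCast, norm_div, norm_one] at h2
    have h3 : 0 < ‖((p : ℕ) : PadicAlgCl p)‖ :=
      norm_pos_iff.2 (by exact_mod_cast hpp.ne_zero)
    rw [div_le_one h3] at h2
    linarith
  refine hD p hpp hDp (Pool.Agent.Y199.ZF.ringOf ρ)
    (Pool.Agent.Y199.ZF.val_ringOf ρ (by rw [map_natCast]; exact hnp)) P
    (fun j => Pool.Agent.Y199.ZF.val_ringOf ρ (by rw [map_sub]; exact hρn j)) fun i hi => ?_
  apply hcon2
  refine Set.mem_iUnion.2 ⟨i, hPaff, ?_⟩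
  have h2 := coe_eval (pQ P) (c i)
  have hcoe : (fun j => ((pQ P j : Qb) : ℂ)) = fun j => ((P j : ℚ) : ℂ) := by
    funext j
    unfold pQ
    push_cast
    rfl
  rw [hcoe, hi] at h2
  rw [← h2]
  rfl

end Pool.Agent.D0H93.ZF
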