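import Pool.Agent.D0H93.ZF.Near

/-!
# Families which degenerate to a CM point at an algebraic point of an affine space: the local theorem
-/

set_option autoImplicit false

namespace Pool.Agent.D0H93.ZF

open MvPolynomial UpperHalfPlane H294ZP NumberField IsDedekindDomain Pool.Agent.TH526.ZL
open Pool.Agent.D0H93.ZC
open Pool.Agent.N135.ZO (OrdAt Isog)

/-- A CM point `g(q)`, `g` a polynomial with rational coefficients, is ordinary at the places at
which `q` is near to a rational point. -/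
theorem ord_near' {V : ValuationSubring ℂ} {p : ℕ} (hl : p.Prime) (hl2 : p ≠ 2)
    (hpV : V.valuation (p : ℂ) < 1) {z : ℍ} {a b c : ℤ}
    (ha : a ≠ 0) (habc : (a : ℂ) * (z : ℂ) ^ 2 + b * z + c = 0)
    (hp : (4 * a * c - b ^ 2).toNat + 1 < p) {k : ℕ} {g : MvPolynomial (Fin k) ℚ}
    {q : Fin k → ℂ} (hzg : (z : ℂ) = aeval q g)
    (hg : ∀ d ∈ g.support, ((g.coeff d : ℚ) : ℂ) ∈ V)
    (hq : ∀ j, q j ∈ V) {P : Fin k → ℚ} (hP : ∀ j, V.valuation ((P j : ℂ) - q j) < 1) :
    OrdAt p z := by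
  obtain ⟨h1, h2, h3⟩ := mv_near V g (fun d hd => by
    rw [eq_ratCast]
    exact hg d hd) hq hP
  have h4 : aeval (fun j => ((P j : ℚ) : ℂ)) g = ((eval P g : ℚ) : ℂ) := by
    have h5 : (fun j => ((P j : ℚ) : ℂ)) = fun j => algebraMap ℚ ℂ (P j) := by
      funext j
      rw [eq_ratCast]
    rw [h5, ← eq_ratCast (algebraMap ℚ ℂ)]
    exact (MvPolynomial.aeval_algebraMap_apply (B := ℂ) P g)
  rw [h4] at h1 h3
  rw [← hzg] at h3
  obtain ⟨s, hs⟩ := rat_near hl hpV h1
  have h5 : V.valuation ((z : ℂ) - s) < 1 := by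
    have h6 : (z : ℂ) - s = (((eval P g : ℚ) : ℂ) - s) - (((eval P g : ℚ) : ℂ) - z) := by ring
    rw [h6]
    exact Valuation.map_sub_lt _ hs h3
  have hzV : (z : ℂ) ∈ V := by
    have h6 : (z : ℂ) = ((z : ℂ) - s) + s := by ring
    rw [h6]
    exact V.add_mem _ _ ((V.valuation_le_one_iff _).1 h5.le) (intCast_mem V s)
  refine Pool.Agent.D0H93.ZC.ordAt_of_root hl hl2 ha habc hp (s := s) (int_dvd hl hpV ?_)
  have h6 : ((a * s ^ 2 + b * s + c : ℤ) : ℂ) = -(((z : ℂ) - s) * (a * (z + s) + b)) := by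
    push_cast
    linear_combination habc
  rw [h6, Valuation.map_neg, map_mul]
  refine (mul_le_of_le_one_right' ((V.valuation_le_one_iff _).2 ?_)).trans_lt h5
  exact V.add_mem _ _ (V.mul_mem _ _ (intCast_mem V a) (V.add_mem _ _ hzV (intCast_mem V s)))
    (intCast_mem V b)

end Pool.Agent.D0H93.ZF
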