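import Pool.Agent.D0H93.ZF.Loc

/-!
# Families which degenerate to a CM point at an algebraic point of an affine space
-/

set_option autoImplicit false

namespace Pool.Agent.D0H93.ZF

open MvPolynomial UpperHalfPlane H294ZP NumberField IsDedekindDomain Pool.Agent.TH526.ZL
open Pool.Agent.D0H93.ZC
open Pool.Agent.N135.ZO (OrdAt Isog)

/-- a rational point as a point over the algebraic numbers -/
noncomputable def pQ {k : ℕ} (P : Fin k → ℚ) : Fin k → Qb := fun j => (P j : Qb)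

theorem coe_eval {k : ℕ} (x : Fin k → Qb) (f : MvPolynomial (Fin k) Qb) :
    ((eval x f : Qb) : ℂ) = aeval (fun j => ((x j : Qb) : ℂ)) f :=
  (MvPolynomial.aeval_algebraMap_apply (B := ℂ) x f).symm

theorem eval_mem {k : ℕ} {K : IntermediateField ℚ ℂ} {x : Fin k → Qb} {f : MvPolynomial (Fin k) Qb}
    (hx : ∀ j, ((x j : Qb) : ℂ) ∈ K) (hf : ∀ d, ((f.coeff d : Qb) : ℂ) ∈ K) :
    ((eval x f : Qb) : ℂ) ∈ K := by
  rw [coe_eval, aeval_def, eval₂_eq']
  exact sum_mem fun d _ => mul_mem (hf d) (prod_mem fun j _ => pow_mem (hx j) _)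

theorem local_family {κ : Type} [Finite κ] {N n m k : ℕ}
    (G : κ → MvPolynomial (Fin (N + 1)) (Polynomial Qb)) (hG : ∀ i, ∃ e, (G i).IsHomogeneous e)
    (A B : Fin n → MvPolynomial (Fin (N + 1)) (Polynomial Qb)) (d : Fin n → ℕ)
    (hA : ∀ i, (A i).IsHomogeneous (d i)) (hB : ∀ i, (B i).IsHomogeneous (d i))
    (u w : MvPolynomial (Fin k) Qb) (c : Fin n → MvPolynomial (Fin k) Qb) (q : Fin k → Qb)
    (hwq : eval q w ≠ 0) (hcq : ∀ i, eval q (c i) = 0)
    (hdis : ∀ I : Finset (Fin n), I.card = m + 1 → ∀ y : Fin (N + 1) → ℂ,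
      (∀ i, aeval y (spec (eval q u / eval q w) (G i)) = 0) →
      (∀ i ∈ I, aeval y (spec (eval q u / eval q w) (A i)) *
        aeval y (spec (eval q u / eval q w) (B i)) = 0) → y = 0)
    (τ : Fin n → Option ℍ) (hcm : ∀ i z, τ i = some z → IsCM z)
    (hτq : ∀ i z, τ i = some z → (z : ℂ) ∈
      IntermediateField.adjoin ℚ (Set.range fun j => ((q j : Qb) : ℂ)))
    (h0 : ∀ i z, τ i = some z → jj z ≠ 0) (h1728 : ∀ i z, τ i = some z → jj z ≠ 1728)
    (hiso : ∀ i j z z', i ≠ j → τ i = some z → τ j = some z' → ¬ Isog (jj z) (jj z'))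
    (hcusp : ∀ i j, τ i = none → τ j = none → i = j) :
    ∃ D : ℕ, ∀ p : ℕ, p.Prime → D < p → ∀ V0 : ValuationSubring ℂ, V0.valuation (p : ℂ) < 1 →
      ∀ P : Fin k → ℚ, (∀ j, V0.valuation ((P j : ℂ) - ((q j : Qb) : ℂ)) < 1) →
      (∀ i, eval (pQ P) (c i) ≠ 0) → eval (pQ P) w ≠ 0 ∧
      ∀ (r : ℕ) (Z : SpecialDatum n r) (x : Fin n → ℂ), x ∈ Z.locus →
      ∀ y : Fin (N + 1) → ℂ, y ≠ 0 →
      (∀ i, aeval y (spec (eval (pQ P) u / eval (pQ P) w) (G i)) = 0) →
      (∀ i, Eqn (τ i) ((eval (pQ P) (c i) : Qb) : ℂ)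
        (aeval y (spec (eval (pQ P) u / eval (pQ P) w) (A i)))
        (aeval y (spec (eval (pQ P) u / eval (pQ P) w) (B i))) (x i)) →
      ∀ S : Finset (Fin n), AlgebraicIndependent ℚ (fun i : S => x i) →
        n + S.card ≤ r + m := by
  classical
  have hQalg : ∀ z : Qb, IsAlgebraic ℚ (z : ℂ) := fun z => (mem_algebraicClosure_iff.1 z.2)
  -- general position
  obtain ⟨W, hWfin, hαW, hW⟩ := exists_gp G hG A B d hA hB (eval q u / eval q w) hdis
  -- the CM data
  have hdata : ∀ i, ∃ (a b e : ℤ) (g : MvPolynomial (Fin k) ℚ), ∀ z, τ i = some z → a ≠ 0 ∧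
      (a : ℂ) * (z : ℂ) ^ 2 + b * z + e = 0 ∧
        (z : ℂ) = aeval (fun j => ((q j : Qb) : ℂ)) g := by
    intro i
    rcases hi : τ i with _ | z
    · exact ⟨0, 0, 0, 0, fun z hz => by simp at hz⟩
    · obtain ⟨a, b, e, ha, h⟩ := hcm i z hi
      have h2 := hτq i z hi
      have h3 : (z : ℂ) ∈ Algebra.adjoin ℚ (Set.range fun j => ((q j : Qb) : ℂ)) := by
        have h4 := IntermediateField.adjoin_toSubalgebra_of_isAlgebraic (F := ℚ) (E := ℂ)
          (S := Set.range fun j => ((q j : Qb) : ℂ)) (by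
            rintro _ ⟨j, rfl⟩
            exact hQalg _)
        rw [← h4]
        exact h2
      rw [Algebra.adjoin_range_eq_range_aeval] at h3
      obtain ⟨g, hg⟩ := h3
      refine ⟨a, b, e, g, fun z' hz' => ?_⟩
      obtain rfl : z = z' := by simpa using hz'
      exact ⟨ha, h, hg.symm⟩
  choose ca cb ce g hcm' using hdata
  -- the number field
  let T : Set ℂ := (Set.range fun j => ((q j : Qb) : ℂ)) ∪
    ((⋃ i, (fun j : Fin k →₀ ℕ => (((c i).coeff j : Qb) : ℂ)) '' ((c i).support : Set _)) ∪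
    (((fun j : Fin k →₀ ℕ => ((u.coeff j : Qb) : ℂ)) '' (u.support : Set _)) ∪
    ((fun j : Fin k →₀ ℕ => ((w.coeff j : Qb) : ℂ)) '' (w.support : Set _))))
  have hTfin : T.Finite := (Set.finite_range _).union
    ((Set.finite_iUnion fun i => (Finset.finite_toSet _).image _).union
    (((Finset.finite_toSet _).image _).union ((Finset.finite_toSet _).image _)))
  have hTalg : ∀ z ∈ T, IsIntegral ℚ z := by
    rintro z (⟨j, rfl⟩ | hz | ⟨j, -, rfl⟩ | ⟨j, -, rfl⟩)
    · exact (hQalg _).isIntegral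
    · obtain ⟨i, hi⟩ := Set.mem_iUnion.1 hz
      obtain ⟨j, -, rfl⟩ := hi
      exact (hQalg _).isIntegral
    · exact (hQalg _).isIntegral
    · exact (hQalg _).isIntegral
  let K : IntermediateField ℚ ℂ := IntermediateField.adjoin ℚ T
  have hKfd : FiniteDimensional ℚ K := by
    have := hTfin.to_subtype
    exact IntermediateField.finiteDimensional_adjoin hTalg
  have hKnf : NumberField K := ⟨⟩
  have hqK : ∀ j, ((q j : Qb) : ℂ) ∈ K := fun j =>
    IntermediateField.subset_adjoin ℚ T (Or.inl ⟨j, rfl⟩)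
  have hcK : ∀ i j, (((c i).coeff j : Qb) : ℂ) ∈ K := by
    intro i j
    by_cases h : (c i).coeff j = 0
    · rw [h]
      exact zero_mem K
    · exact IntermediateField.subset_adjoin ℚ T (Or.inr (Or.inl (Set.mem_iUnion.2
        ⟨i, ⟨j, mem_support_iff.2 h, rfl⟩⟩)))
  have huK : ∀ j, ((u.coeff j : Qb) : ℂ) ∈ K := by
    intro j
    by_cases h : u.coeff j = 0
    · rw [h]
      exact zero_mem K
    · exact IntermediateField.subset_adjoin ℚ T (Or.inr (Or.inr (Or.inl
        ⟨j, mem_support_iff.2 h, rfl⟩)))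
  have hwK : ∀ j, ((w.coeff j : Qb) : ℂ) ∈ K := by
    intro j
    by_cases h : w.coeff j = 0
    · rw [h]
      exact zero_mem K
    · exact IntermediateField.subset_adjoin ℚ T (Or.inr (Or.inr (Or.inr
        ⟨j, mem_support_iff.2 h, rfl⟩)))
  -- large primes
  have hWf : Finite W := hWfin.to_subtype
  obtain ⟨D1, hD1⟩ := exists_large (fun z : W => ((z : Qb) : ℂ)) (fun z => hQalg _)
  obtain ⟨D2, hD2⟩ := exists_large (fun z : (i : Fin n) × (c i).support =>
    (((c z.1).coeff z.2 : Qb) : ℂ)) (fun z => hQalg _)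
  let ee : Fin n → Fin 3 → ℂ := fun i => match τ i with
    | none => ![0, 0, 0]
    | some z => ![jj z, (jj z)⁻¹, (jj z - 1728)⁻¹]
  have hee : ∀ i j, IsAlgebraic ℚ (ee i j) := by
    intro i j
    rcases hi : τ i with _ | z
    · have h1 : ee i = ![0, 0, 0] := by
        simp only [ee]
        rw [hi]
      rw [h1]
      fin_cases j <;> exact isAlgebraic_zero
    · have h1 : ee i = ![jj z, (jj z)⁻¹, (jj z - 1728)⁻¹] := by
        simp only [ee]
        rw [hi]
      rw [h1]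
      have h2 : IsAlgebraic ℚ (jj z) :=
        ((singular_modulus_integral z (hcm i z hi)).tower_top (A := ℚ)).isAlgebraic
      have h3 : IsAlgebraic ℚ (jj z - 1728) := h2.sub (isAlgebraic_algebraMap (1728 : ℚ))
      fin_cases j
      · exact h2
      · exact h2.inv
      · exact h3.inv
  obtain ⟨D3, hD3⟩ := exists_large (fun z : Fin n × Fin 3 => ee z.1 z.2) (fun z => hee _ _)
  obtain ⟨D4, hD4⟩ := exists_large (fun z : (i : Fin n) × (g i).support =>
    (((g z.1).coeff z.2 : ℚ) : ℂ)) (fun z => isAlgebraic_algebraMap ((g z.1).coeff z.2))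
  obtain ⟨D5, hD5⟩ := exists_large (fun j : Fin k => ((q j : Qb) : ℂ)) (fun z => hQalg _)
  obtain ⟨D6, hD6⟩ := exists_large (fun z : u.support => ((u.coeff z : Qb) : ℂ))
    (fun z => hQalg _)
  obtain ⟨D7, hD7⟩ := exists_large (fun z : w.support => ((w.coeff z : Qb) : ℂ))
    (fun z => hQalg _)
  obtain ⟨D8, hD8⟩ := exists_large (fun _ : Unit => (((eval q w)⁻¹ : Qb) : ℂ))
    (fun z => hQalg _)
  obtain ⟨D, hD⟩ : ∃ D : ℕ, D = D1 + D2 + D3 + D4 + (D5 + D6 + D7 + D8) +
    (∑ i, ((4 * ca i * ce i - cb i ^ 2).toNat + 1)) + (Module.finrank ℚ K + 3) := ⟨_, rfl⟩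
  refine ⟨D, fun p hp hDp V0 hpV0 P hnear hct => ?_⟩
  have hqV : ∀ V : ValuationSubring ℂ, V.valuation (p : ℂ) < 1 → ∀ j, ((q j : Qb) : ℂ) ∈ V :=
    fun V hV j => hD5 p hp (by omega) V hV j
  have hcV : ∀ V : ValuationSubring ℂ, V.valuation (p : ℂ) < 1 → ∀ i, ∀ j ∈ (c i).support,
      algebraMap Qb ℂ ((c i).coeff j) ∈ V :=
    fun V hV i j hj => hD2 p hp (by omega) V hV ⟨i, ⟨j, hj⟩⟩
  have huV : ∀ V : ValuationSubring ℂ, V.valuation (p : ℂ) < 1 → ∀ j ∈ u.support,
      algebraMap Qb ℂ (u.coeff j) ∈ V := fun V hV j hj => hD6 p hp (by omega) V hV ⟨j, hj⟩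
  have hwV : ∀ V : ValuationSubring ℂ, V.valuation (p : ℂ) < 1 → ∀ j ∈ w.support,
      algebraMap Qb ℂ (w.coeff j) ∈ V := fun V hV j hj => hD7 p hp (by omega) V hV ⟨j, hj⟩
  have hcoe : (fun j => ((pQ P j : Qb) : ℂ)) = fun j => ((P j : ℚ) : ℂ) := by
    funext j
    unfold pQ
    push_cast
    rfl
  -- values at near points
  have hnv : ∀ V : ValuationSubring ℂ, V.valuation (p : ℂ) < 1 →
      (∀ j, V.valuation ((P j : ℂ) - ((q j : Qb) : ℂ)) < 1) → ∀ f : MvPolynomial (Fin k) Qb,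
      (∀ j ∈ f.support, algebraMap Qb ℂ (f.coeff j) ∈ V) →
      ((eval (pQ P) f : Qb) : ℂ) ∈ V ∧ ((eval q f : Qb) : ℂ) ∈ V ∧
        V.valuation (((eval (pQ P) f : Qb) : ℂ) - ((eval q f : Qb) : ℂ)) < 1 := by
    intro V hV hn f hf
    have h1 := mv_near V f hf (hqV V hV) hn
    rw [coe_eval, coe_eval, hcoe]
    exact h1
  have key : ∀ V : ValuationSubring ℂ, ∀ x : ℂ, x ≠ 0 → x ∈ V → x⁻¹ ∈ V → V.valuation x = 1 := by
    intro V x hx h3 h4
    rw [← V.valuation_le_one_iff] at h3 h4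
    rw [map_inv₀] at h4
    have h5 : V.valuation x ≠ 0 := by rwa [Valuation.ne_zero_iff]
    refine le_antisymm h3 ?_
    have h6 := mul_le_mul_left h4 (V.valuation x)
    rwa [inv_mul_cancel₀ h5, one_mul] at h6
  have hwq1 : ∀ V : ValuationSubring ℂ, V.valuation (p : ℂ) < 1 →
      V.valuation ((eval q w : Qb) : ℂ) = 1 := by
    intro V hV
    have h2 := hD8 p hp (by omega) V hV ()
    have hmem : ((eval q w : Qb) : ℂ) ∈ V := by
      rw [coe_eval, aeval_def, eval₂_eq']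
      exact sum_mem fun j hj => mul_mem (hwV V hV j hj) (prod_mem fun j _ => pow_mem (hqV V hV j) _)
    refine key V _ (by exact_mod_cast hwq) hmem ?_
    have h3 : (((eval q w)⁻¹ : Qb) : ℂ) = ((eval q w : Qb) : ℂ)⁻¹ := by push_cast; rfl
    rwa [← h3]
  have hwP1 : ∀ V : ValuationSubring ℂ, V.valuation (p : ℂ) < 1 →
      (∀ j, V.valuation ((P j : ℂ) - ((q j : Qb) : ℂ)) < 1) →
      V.valuation ((eval (pQ P) w : Qb) : ℂ) = 1 := by
    intro V hV hn
    have h1 := (hnv V hV hn w (hwV V hV)).2.2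
    have h2 := hwq1 V hV
    rw [← h2]
    refine Valuation.map_eq_of_sub_lt _ ?_
    rw [h2]
    exact h1
  have hwP0 : eval (pQ P) w ≠ 0 := by
    intro h
    have h1 := hwP1 V0 hpV0 hnear
    rw [h] at h1
    simp at h1
  refine ⟨hwP0, ?_⟩
  set t : Qb := eval (pQ P) u / eval (pQ P) w with ht
  set β : Qb := eval q u / eval q w with hβ
  have htβ : ∀ V : ValuationSubring ℂ, V.valuation (p : ℂ) < 1 →
      (∀ j, V.valuation ((P j : ℂ) - ((q j : Qb) : ℂ)) < 1) →
      V.valuation (algebraMap Qb ℂ (t - β)) < 1 := by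
    intro V hV hn
    obtain ⟨-, hu2, hu3⟩ := hnv V hV hn u (huV V hV)
    obtain ⟨-, -, hw3⟩ := hnv V hV hn w (hwV V hV)
    have h1 : algebraMap Qb ℂ (t - β) =
        ((((eval (pQ P) u : Qb) : ℂ) - ((eval q u : Qb) : ℂ)) * ((eval q w : Qb) : ℂ) -
          ((eval q u : Qb) : ℂ) * (((eval (pQ P) w : Qb) : ℂ) - ((eval q w : Qb) : ℂ))) /
          (((eval (pQ P) w : Qb) : ℂ) * ((eval q w : Qb) : ℂ)) := by
      have hw1 : ((eval (pQ P) w : Qb) : ℂ) ≠ 0 := by exact_mod_cast hwP0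
      have hw2 : ((eval q w : Qb) : ℂ) ≠ 0 := by exact_mod_cast hwq
      have h2 : algebraMap Qb ℂ (t - β) = ((eval (pQ P) u : Qb) : ℂ) / ((eval (pQ P) w : Qb) : ℂ) -
          ((eval q u : Qb) : ℂ) / ((eval q w : Qb) : ℂ) := by
        rw [map_sub, ht, hβ, map_div₀, map_div₀]
        rfl
      rw [h2]
      field_simp
      ring
    rw [h1, map_div₀, map_mul, hwP1 V hV hn, hwq1 V hV, mul_one, div_one]
    refine Valuation.map_sub_lt _ ?_ ?_
    · rw [map_mul, hwq1 V hV, mul_one]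
      exact hu3
    · rw [map_mul]
      exact (mul_le_of_le_one_left' ((V.valuation_le_one_iff _).2 hu2)).trans_lt hw3
  intro r Z x hx y hy0 hyG hEq S hS
  -- the elements of `K`
  let σ : K →+* ℂ := algebraMap K ℂ
  have hPK : ∀ j, ((pQ P j : Qb) : ℂ) ∈ K := by
    intro j
    have h1 := congrFun hcoe j
    rw [h1]
    exact SubfieldClass.ratCast_mem K (P j)
  have hlK : ∀ i, ((eval (pQ P) (c i) : Qb) : ℂ) ∈ K := fun i => eval_mem hPK (hcK i)
  let l : Fin n → K := fun i => ⟨_, hlK i⟩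
  have hσl : ∀ i, σ (l i) = ((eval (pQ P) (c i) : Qb) : ℂ) := fun i => rfl
  have hl0 : ∀ i, σ (l i) ≠ 0 := by
    intro i h
    apply hct i
    rw [hσl] at h
    exact_mod_cast h
  -- the place of `K`
  obtain ⟨v, hpv, hv⟩ := exists_place σ V0 hp hpV0
  -- the normalized coordinates
  let uu' : Fin n → ℂ := fun i => uu (τ i) (σ (l i)) (x i)
  have hBu : ∀ i, aeval y (spec t (B i)) * uu' i = aeval y (spec t (A i)) :=
    fun i => uu_eqn (hl0 i) (hEq i)
  have huind : AlgebraicIndependent ℚ (fun i : S => uu' i) := by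
    have hQb : Algebra.IsAlgebraic ℚ Qb := algebraicClosure.isAlgebraic ℚ ℂ
    have hx1 : AlgebraicIndependent Qb (fun i : S => x i) := hS.extendScalars Qb
    have hj : ∀ i z, τ i = some z → jj z ∈ Qb := fun i z hz =>
      mem_algebraicClosure_iff.2
        ((singular_modulus_integral z (hcm i z hz)).tower_top (A := ℚ)).isAlgebraic
    have hsm : ∀ i, ∃ s m : Qb, m ≠ 0 ∧ x i = algebraMap Qb ℂ s + algebraMap Qb ℂ m * uu' i := by
      intro i
      have hne : (eval (pQ P) (c i)) ≠ 0 := hct i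
      have hne' : ((eval (pQ P) (c i) : Qb) : ℂ) ≠ 0 := hl0 i
      rcases hi : τ i with _ | z
      · refine ⟨0, (eval (pQ P) (c i))⁻¹, inv_ne_zero hne, ?_⟩
        have h1 : uu' i = ((eval (pQ P) (c i) : Qb) : ℂ) * x i := by
          simp only [uu']
          rw [hi]
          rfl
        rw [h1, map_zero, zero_add, map_inv₀]
        change x i = ((eval (pQ P) (c i) : Qb) : ℂ)⁻¹ * (((eval (pQ P) (c i) : Qb) : ℂ) * x i)
        rw [inv_mul_cancel_left₀ hne']
      · refine ⟨⟨jj z, hj i z hi⟩, (eval (pQ P) (c i)), hne, ?_⟩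
        have h1 : uu' i = (x i - jj z) / ((eval (pQ P) (c i) : Qb) : ℂ) := by
          simp only [uu']
          rw [hi]
          rfl
        rw [h1]
        change x i = jj z + ((eval (pQ P) (c i) : Qb) : ℂ) *
          ((x i - jj z) / ((eval (pQ P) (c i) : Qb) : ℂ))
        rw [mul_div_cancel₀ _ hne']
        ring
    choose s m hm hsm using hsm
    have h2 : AlgebraicIndependent Qb (fun i : S => uu' i) :=
      Pool.Agent.N135.ZO.indep_affine (fun i : S => s i) (fun i : S => m i) (fun i => hm i)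
        (fun i => hsm i) hx1
    exact h2.restrictScalars (algebraMap ℚ Qb).injective
  have hu : ∀ Q : MvPolynomial S (𝓞 K),
      eval₂ (σ.comp (algebraMap (𝓞 K) K)) (fun i : S => uu' i) Q = 0 → Q = 0 := by
    let _ : Algebra (𝓞 K) ℂ := (σ.comp (algebraMap (𝓞 K) K)).toAlgebra
    have _ : IsScalarTower (𝓞 K) K ℂ := IsScalarTower.of_algebraMap_eq (fun _ => rfl)
    have h1 : AlgebraicIndependent K (fun i : S => uu' i) := huind.extendScalars K
    have h2 : AlgebraicIndependent (𝓞 K) (fun i : S => uu' i) :=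
      h1.restrictScalars (RingOfIntegers.coe_injective)
    exact fun Q hQ => algebraicIndependent_iff.1 h2 Q hQ
  obtain ⟨V, V', hA1, hA2, hVS, hV'S, hVV', hV'V⟩ := exists_two σ v (fun i : S => uu' i) hu
  have hpV : V.valuation (p : ℂ) < 1 := by
    have := (hA2 (p : 𝓞 K)).2 hpv
    simpa using this
  have hpV' : V'.valuation (p : ℂ) < 1 := hVV' _ hpV
  have hp2 : p ≠ 2 := by omega
  -- the parameter
  have hnV : ∀ j, V.valuation ((P j : ℂ) - ((q j : Qb) : ℂ)) < 1 := by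
    intro j
    let e : K := ⟨((P j : ℚ) : ℂ), SubfieldClass.ratCast_mem K (P j)⟩ - ⟨_, hqK j⟩
    have h1 : σ e = (P j : ℂ) - ((q j : Qb) : ℂ) := rfl
    rw [← h1]
    refine (val_lt_iff hA1 hA2 e).2 (hv e ?_)
    rw [h1]
    exact hnear j
  have hnV' : ∀ j, V'.valuation ((P j : ℂ) - ((q j : Qb) : ℂ)) < 1 := fun j => hVV' _ (hnV j)
  -- the scaling factors
  have hlV : ∀ i, V.valuation (σ (l i)) < 1 := by
    intro i
    have h1 := (hnv V hpV hnV (c i) (hcV V hpV i)).2.2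
    rw [hcq i] at h1
    have h2 : ((0 : Qb) : ℂ) = 0 := rfl
    rwa [h2, sub_zero] at h1
  have hlp : ∀ i (k : ℕ), V.valuation (σ (l i)) ^ ((p - 1) * p ^ k) ≠ V.valuation (p : ℂ) := by
    intro i k
    have h1 : v.valuation K (l i) < 1 := (val_lt_iff hA1 hA2 (l i)).1 (hlV i)
    have h2 : Module.finrank ℚ K < (p - 1) * p ^ k := by
      have h3 : 0 < p ^ k := pow_pos hp.pos k
      calc Module.finrank ℚ K < p - 1 := by omega
        _ = (p - 1) * 1 := (mul_one _).symm
        _ ≤ (p - 1) * p ^ k := Nat.mul_le_mul_left _ h3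
    have h3 := pow_ne v hp hpv h2 h1
    have hl0' : l i ≠ 0 := by
      intro h
      apply hl0 i
      rw [h, map_zero]
    have h4 := Pool.Agent.N135.ZO.val_ne hA1 hA2 (x := l i ^ ((p - 1) * p ^ k)) (y := (p : K))
      (pow_ne_zero _ hl0') (by exact_mod_cast hp.ne_zero) (by rw [map_pow]; exact h3)
    rw [map_pow, map_pow, map_natCast] at h4
    exact h4
  -- the CM points
  have hone : ∀ i z, τ i = some z → V.valuation (jj z) = 1 ∧ V.valuation (jj z - 1728) = 1 := by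
    intro i z hi
    have h1 : ee i = ![jj z, (jj z)⁻¹, (jj z - 1728)⁻¹] := by
      simp only [ee]
      rw [hi]
    have h2 := fun j => hD3 p hp (by omega) V hpV (i, j)
    simp only [h1] at h2
    have h20 : jj z ∈ V := h2 0
    have h21 : (jj z)⁻¹ ∈ V := h2 1
    have h22 : (jj z - 1728)⁻¹ ∈ V := h2 2
    have h23 : jj z - 1728 ∈ V := sub_mem h20 (by exact_mod_cast natCast_mem V 1728)
    exact ⟨key V _ (h0 i z hi) h20 h21, key V _ (sub_ne_zero.2 (h1728 i z hi)) h23 h22⟩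
  have hord : ∀ i z, τ i = some z → OrdAt p z := by
    intro i z hi
    obtain ⟨ha, habc, hzg⟩ := hcm' i z hi
    refine ord_near' hp hp2 hpV ha habc ?_ hzg ?_ (hqV V hpV) hnV
    · have h1 : (4 * ca i * ce i - cb i ^ 2).toNat + 1 ≤
          ∑ i, ((4 * ca i * ce i - cb i ^ 2).toNat + 1) :=
        Finset.single_le_sum (f := fun i => (4 * ca i * ce i - cb i ^ 2).toNat + 1)
          (fun _ _ => Nat.zero_le _) (Finset.mem_univ i)
      omega
    · intro j hj
      exact hD4 p hp (by omega) V hpV ⟨i, ⟨j, hj⟩⟩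
  -- the count
  let J : Finset (Fin n) := Finset.univ.filter fun i => V.valuation (uu' i) = 1
  have hJ := local_mixed hp hp2 hpV τ hcm hord (fun i z hi => (hone i z hi).1)
    (fun i z hi => (hone i z hi).2) hiso hcusp Z hx J (fun i hi =>
      near_of_uu (hlV i) (hl0 i) (hlp i) (Finset.mem_filter.1 hi).2)
  have hgp := hW V' (fun z hz => hD1 p hp (by omega) V' hpV' ⟨z, hz⟩) t
    (htβ V' hpV' hnV') y hy0 hyG uu' hBu
  have e1 : {i | V'.valuation (uu' i) ≠ 1}.ncard =
      (Finset.univ.filter fun i => V'.valuation (uu' i) ≠ 1).card := by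
    rw [← Set.ncard_coe_finset]
    congr 1
    ext i
    simp
  rw [e1] at hgp
  have hsub : (Finset.univ.filter fun i => V.valuation (uu' i) ≠ 1) ∪ S ⊆
      Finset.univ.filter fun i => V'.valuation (uu' i) ≠ 1 := by
    intro i hi
    rw [Finset.mem_filter]
    refine ⟨Finset.mem_univ i, ?_⟩
    rcases Finset.mem_union.1 hi with h | h
    · intro h1
      exact (Finset.mem_filter.1 h).2 (hV'V _ h1)
    · exact (hV'S ⟨i, h⟩).ne
  have hdisj : Disjoint (Finset.univ.filter fun i => V.valuation (uu' i) ≠ 1) S := by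
    rw [Finset.disjoint_left]
    intro i hi hiS
    exact (Finset.mem_filter.1 hi).2 (hVS ⟨i, hiS⟩)
  have h1 := Finset.card_le_card hsub
  rw [Finset.card_union_of_disjoint hdisj] at h1
  have h2 : J.card + (Finset.univ.filter fun i => V.valuation (uu' i) ≠ 1).card = n := by
    have h3 := Finset.card_filter_add_card_filter_not (s := (Finset.univ : Finset (Fin n)))
      (fun i => V.valuation (uu' i) = 1)
    rw [Finset.card_univ, Fintype.card_fin] at h3
    exact h3
  omega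

end Pool.Agent.D0H93.ZF
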