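import Pool.Agent.D0H93.ZC.Main

/-!
# Values of polynomials in several variables at near points, and the primes of number fields below
# a valuation ring
-/

set_option autoImplicit false

namespace Pool.Agent.D0H93.ZF

open MvPolynomial UpperHalfPlane H294ZP NumberField IsDedekindDomain Pool.Agent.D0H93.ZC
open Pool.Agent.N135.ZO (OrdAt Isog)

/-- Values of a polynomial with coefficients in a valuation ring at near points. -/
theorem mv_near {k : Type} [Field k] [Algebra k ℂ] {r : ℕ} (V : ValuationSubring ℂ)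
    (f : MvPolynomial (Fin r) k) (hf : ∀ d ∈ f.support, algebraMap k ℂ (f.coeff d) ∈ V)
    {x y : Fin r → ℂ} (hy : ∀ j, y j ∈ V)
    (h : ∀ j, V.valuation (x j - y j) < 1) :
    aeval x f ∈ V ∧ aeval y f ∈ V ∧ V.valuation (aeval x f - aeval y f) < 1 := by
  classical
  have hx : ∀ j, x j ∈ V := by
    intro j
    have h1 : x j = (x j - y j) + y j := by ring
    rw [h1]
    exact V.add_mem _ _ ((V.valuation_le_one_iff _).1 (h j).le) (hy j)
  have hval : ∀ (z : Fin r → ℂ) (hz : ∀ j, z j ∈ V), aeval z f =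
      ((∑ d ∈ f.support.attach, (⟨algebraMap k ℂ (f.coeff d.1), hf d.1 d.2⟩ : V) *
        ∏ j, (⟨z j, hz j⟩ : V) ^ (d.1 j) : V) : ℂ) := by
    intro z hz
    rw [aeval_def, eval₂_eq', ← Finset.sum_attach]
    have h1 : ∀ s : Finset {d // d ∈ f.support},
        ((∑ d ∈ s, (⟨algebraMap k ℂ (f.coeff d.1), hf d.1 d.2⟩ : V) *
          ∏ j, (⟨z j, hz j⟩ : V) ^ (d.1 j) : V) : ℂ) =
        ∑ d ∈ s, algebraMap k ℂ (f.coeff d.1) * ∏ j, z j ^ (d.1 j) := by
      intro s
      have h2 := map_sum V.subtype (fun d : {d // d ∈ f.support} =>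
        (⟨algebraMap k ℂ (f.coeff d.1), hf d.1 d.2⟩ : V) *
          ∏ j, (⟨z j, hz j⟩ : V) ^ (d.1 j)) s
      refine h2.trans (Finset.sum_congr rfl fun d _ => ?_)
      rw [map_mul, map_prod]
      rfl
    exact (h1 _).symm
  have hmem : ∀ (z : Fin r → ℂ), (∀ j, z j ∈ V) → aeval z f ∈ V := by
    intro z hz
    rw [hval z hz]
    exact Subtype.mem _
  refine ⟨hmem x hx, hmem y hy, ?_⟩
  have hres : ∀ (a b : V), V.valuation ((a : ℂ) - b) < 1 ↔
      IsLocalRing.residue V a = IsLocalRing.residue V b := by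
    intro a b
    rw [← sub_eq_zero, ← map_sub, IsLocalRing.residue_eq_zero_iff,
      ValuationSubring.valuation_lt_one_iff]
    rfl
  rw [hval x hx, hval y hy, hres, map_sum, map_sum]
  refine Finset.sum_congr rfl fun d _ => ?_
  rw [map_mul, map_mul, map_prod, map_prod]
  congr 1
  refine Finset.prod_congr rfl fun j _ => ?_
  rw [map_pow, map_pow, (hres ⟨x j, hx j⟩ ⟨y j, hy j⟩).1 (h j)]

/-- The prime of a number field below a valuation ring. -/
theorem exists_place {K : Type} [Field K] [NumberField K] (σ : K →+* ℂ) (V : ValuationSubring ℂ)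
    {p : ℕ} (hp : p.Prime) (hpV : V.valuation (p : ℂ) < 1) :
    ∃ v : HeightOneSpectrum (𝓞 K), (p : 𝓞 K) ∈ v.asIdeal ∧
      ∀ x : K, V.valuation (σ x) < 1 → v.valuation K x < 1 := by
  classical
  have hint : ∀ a : 𝓞 K, σ (algebraMap (𝓞 K) K a) ∈ V := by
    intro a
    have h1 : IsIntegral ℤ (σ (algebraMap (𝓞 K) K a)) :=
      (RingOfIntegers.isIntegral_coe a).map σ.toIntAlgHom
    obtain ⟨y, hy⟩ := IsIntegrallyClosed.isIntegral_iff.1 (h1.tower_top (A := V))
    rw [← hy]
    exact y.2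
  let e : 𝓞 K →+* V := (σ.comp (algebraMap (𝓞 K) K)).codRestrict V.toSubring hint
  have he : ∀ a, ((e a : V) : ℂ) = σ (algebraMap (𝓞 K) K a) := fun _ => rfl
  let I : Ideal (𝓞 K) := Ideal.comap e (IsLocalRing.maximalIdeal V)
  have hI : ∀ a, a ∈ I ↔ V.valuation (σ (algebraMap (𝓞 K) K a)) < 1 := by
    intro a
    change e a ∈ IsLocalRing.maximalIdeal V ↔ _
    rw [ValuationSubring.valuation_lt_one_iff, he]
  have hpr : I.IsPrime := Ideal.comap_isPrime e _
  have hpI : (p : 𝓞 K) ∈ I := by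
    rw [hI, map_natCast, map_natCast]
    exact hpV
  have hne : I ≠ ⊥ := by
    intro h
    rw [h, Ideal.mem_bot] at hpI
    exact hp.ne_zero (by exact_mod_cast hpI)
  let v : HeightOneSpectrum (𝓞 K) := ⟨I, hpr, hne⟩
  refine ⟨v, hpI, fun x hx => ?_⟩
  by_contra hcon
  push Not at hcon
  have hx0 : x ≠ 0 := by
    rintro rfl
    rw [map_zero] at hcon
    exact absurd hcon (not_le.2 zero_lt_one)
  have h1 : v.valuation K x⁻¹ ≤ 1 := by
    rw [map_inv₀]
    exact inv_le_one_of_one_le₀ hcon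
  obtain ⟨a, d, had⟩ := HeightOneSpectrum.exists_primeCompl_mul_eq_of_integer v x⁻¹ h1
  have hd : V.valuation (σ (algebraMap (𝓞 K) K d)) = 1 := by
    refine le_antisymm ((V.valuation_le_one_iff _).2 (hint _)) (not_lt.1 fun h => ?_)
    exact d.2 ((hI _).2 h)
  have h2 : V.valuation (σ x⁻¹) ≤ 1 := by
    have h3 := congrArg (fun z => V.valuation (σ z)) had
    simp only [map_mul] at h3
    have h4 : V.valuation (σ (algebraMap (𝓞 K) K a)) ≤ 1 := (V.valuation_le_one_iff _).2 (hint a)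
    rw [hd, mul_one] at h3
    rw [h3]
    exact h4
  rw [map_inv₀, map_inv₀] at h2
  have h3 : V.valuation (σ x) ≠ 0 := by
    rw [Valuation.ne_zero_iff, Ne, map_eq_zero]
    exact hx0
  have h5 := mul_le_mul_left h2 (V.valuation (σ x))
  rw [inv_mul_cancel₀ h3, one_mul] at h5
  exact absurd hx (not_lt.2 h5)

end Pool.Agent.D0H93.ZF
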